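import Pool.Agent.KTK.Stmts

set_option autoImplicit false

namespace Pool.Agent.KTK.H18

open Finset

/-- forward bad times -/
def Fb (s : ℕ → ℝ) (σ : ℝ) (N j : ℕ) : Prop :=
  ∃ i, j < i ∧ i ≤ N ∧ σ * ((i : ℝ) - j) < ∑ l ∈ Ico j i, s l

/-- backward bad times (`j` stands for the right end) -/
def Bb (s : ℕ → ℝ) (σ : ℝ) (j : ℕ) : Prop :=
  ∃ i, i < j ∧ σ * ((j : ℝ) - i) < ∑ l ∈ Ico i j, s l

open Classical in
theorem fb_card (s : ℕ → ℝ) (σ : ℝ) (N : ℕ) (hσ : 0 < σ) (hs : ∀ i < N, 0 ≤ s i) :
    ∀ k a : ℕ, a + k = N → σ * (((Ico a N).filter (Fb s σ N)).card : ℝ) ≤ ∑ l ∈ Ico a N, s l := by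
  intro k
  induction k using Nat.strong_induction_on with
  | _ k ih =>
    intro a ha
    rcases Nat.eq_zero_or_pos k with rfl | hk
    · have : a = N := by omega
      subst this
      simp
    · have haN : a < N := by omega
      by_cases hb : Fb s σ N a
      · obtain ⟨i, hi1, hi2, hi3⟩ := hb
        have h1 := ih (N - i) (by omega) i (by omega)
        have h2 : (((Ico a N).filter (Fb s σ N)).card : ℝ) ≤ ((i : ℝ) - a) +
            (((Ico i N).filter (Fb s σ N)).card : ℝ) := by
          have e : Ico a N = Ico a i ∪ Ico i N := (Ico_union_Ico_eq_Ico hi1.le hi2).symm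
          rw [e, filter_union]
          have h3 := card_union_le ((Ico a i).filter (Fb s σ N)) ((Ico i N).filter (Fb s σ N))
          have h4 : ((Ico a i).filter (Fb s σ N)).card ≤ i - a := by
            have := card_filter_le (Ico a i) (Fb s σ N)
            rwa [Nat.card_Ico] at this
          have h5 : ((i - a : ℕ) : ℝ) = (i : ℝ) - a := by push_cast [hi1.le]; ring
          rw [← h5]
          exact_mod_cast h3.trans (Nat.add_le_add_right h4 _)
        have h6 : ∑ l ∈ Ico a N, s l = ∑ l ∈ Ico a i, s l + ∑ l ∈ Ico i N, s l :=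
          (sum_Ico_consecutive s hi1.le hi2).symm
        rw [h6]
        nlinarith
      · have h1 := ih (k - 1) (by omega) (a + 1) (by omega)
        have e : Ico a N = insert a (Ico (a + 1) N) := (insert_Ico_add_one_left_eq_Ico haN).symm
        have h2 : (Ico a N).filter (Fb s σ N) = (Ico (a + 1) N).filter (Fb s σ N) := by
          rw [e, filter_insert, if_neg hb]
        rw [h2]
        have h3 : ∑ l ∈ Ico a N, s l = s a + ∑ l ∈ Ico (a + 1) N, s l := by
          rw [sum_eq_sum_Ico_succ_bot haN]
        rw [h3]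
        have := hs a haN
        linarith

open Classical in
theorem bb_card (s : ℕ → ℝ) (σ : ℝ) (hσ : 0 < σ) :
    ∀ n : ℕ, (∀ i < n, 0 ≤ s i) →
      σ * (((Ico 1 (n + 1)).filter (Bb s σ)).card : ℝ) ≤ ∑ l ∈ Ico 0 n, s l := by
  intro n
  induction n using Nat.strong_induction_on with
  | _ n ih =>
    intro hs
    rcases Nat.eq_zero_or_pos n with rfl | hn
    · simp
    · by_cases hb : Bb s σ n
      · obtain ⟨i, hi1, hi3⟩ := hb
        have h1 := ih i hi1 (fun j hj => hs j (by omega))
        have h2 : (((Ico 1 (n + 1)).filter (Bb s σ)).card : ℝ) ≤ ((n : ℝ) - i) +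
            (((Ico 1 (i + 1)).filter (Bb s σ)).card : ℝ) := by
          have e : Ico 1 (n + 1) = Ico 1 (i + 1) ∪ Ico (i + 1) (n + 1) :=
            (Ico_union_Ico_eq_Ico (by omega) (by omega)).symm
          rw [e, filter_union]
          have h3 := card_union_le ((Ico 1 (i + 1)).filter (Bb s σ))
            ((Ico (i + 1) (n + 1)).filter (Bb s σ))
          have h4 : ((Ico (i + 1) (n + 1)).filter (Bb s σ)).card ≤ n - i := by
            have := card_filter_le (Ico (i + 1) (n + 1)) (Bb s σ)
            rw [Nat.card_Ico] at this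
            omega
          have h5 : ((n - i : ℕ) : ℝ) = (n : ℝ) - i := by push_cast [hi1.le]; ring
          rw [← h5]
          have h6 : (((Ico 1 (i + 1)).filter (Bb s σ) ∪ (Ico (i + 1) (n + 1)).filter (Bb s σ)).card)
              ≤ (n - i) + ((Ico 1 (i + 1)).filter (Bb s σ)).card := by omega
          exact_mod_cast h6
        have h6 : ∑ l ∈ Ico 0 n, s l = ∑ l ∈ Ico 0 i, s l + ∑ l ∈ Ico i n, s l :=
          (sum_Ico_consecutive s (Nat.zero_le _) hi1.le).symm
        rw [h6]
        nlinarith
      · obtain ⟨m, rfl⟩ : ∃ m, n = m + 1 := ⟨n - 1, by omega⟩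
        have h1 := ih m (by omega) (fun j hj => hs j (by omega))
        have h2 : (Ico 1 (m + 1 + 1)).filter (Bb s σ) = (Ico 1 (m + 1)).filter (Bb s σ) := by
          have e : Ico 1 (m + 1 + 1) = insert (m + 1) (Ico 1 (m + 1)) := by
            ext x
            simp only [mem_Ico, mem_insert]
            omega
          rw [e, filter_insert, if_neg hb]
        rw [h2, sum_Ico_succ_top (Nat.zero_le _)]
        have := hs m (by omega)
        linarith

theorem pli : PliStmt := by
  classical
  intro s σ N hσ hs hsum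
  have h1 := fb_card s σ N hσ hs N 0 (by omega)
  have h2 := bb_card s σ hσ N hs
  have e0 : ∑ l ∈ Ico 0 N, s l = ∑ i ∈ range N, s i := by rw [range_eq_Ico]
  rw [e0] at h1 h2
  set A := (Ico 0 N).filter (Fb s σ N) with hA
  set B := (Ico 1 (N + 1)).filter (Bb s σ) with hB
  have hA4 : 4 * A.card ≤ N := by
    have : σ * (4 * (A.card : ℝ)) ≤ σ * N := by nlinarith
    have := le_of_mul_le_mul_left this hσ
    exact_mod_cast this
  have hB4 : 4 * B.card ≤ N := by
    have : σ * (4 * (B.card : ℝ)) ≤ σ * N := by nlinarith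
    have := le_of_mul_le_mul_left this hσ
    exact_mod_cast this
  refine ⟨(range N) \ (A ∪ B), ?_, ?_⟩
  · have h3 := le_card_sdiff (A ∪ B) (range N)
    have h4 := card_union_le A B
    rw [card_range] at h3
    omega
  · intro j hj
    rw [mem_sdiff, mem_range, mem_union, not_or] at hj
    obtain ⟨hjN, hjA, hjB⟩ := hj
    refine ⟨hjN, fun i hji hiN => ?_, fun i hij => ?_⟩
    · by_contra hlt
      push Not at hlt
      apply hjA
      rw [hA, mem_filter]
      refine ⟨by rw [mem_Ico]; omega, i, ?_, hiN, hlt⟩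
      rcases eq_or_lt_of_le hji with h | h
      · subst h
        simp at hlt
      · exact h
    · by_contra hlt
      push Not at hlt
      have hij' : i < j := by
        rcases eq_or_lt_of_le hij with h | h
        · subst h
          simp at hlt
        · exact h
      apply hjB
      rw [hB, mem_filter]
      exact ⟨by rw [mem_Ico]; omega, i, hij', hlt⟩

end Pool.Agent.KTK.H18
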