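import Pool.Agent.Helper62_KTK.SGM
import Pool.Agent.Helper18_KTK.PLI
import Pool.Agent.Helper51_KTK.ANG
import Pool.Agent.Helper92_PRT.BOX
import Pool.Agent.Helper77_KTK.CHN
import Pool.Agent.Helper64_PRT.CRO
import Pool.Agent.Helper66_KTK.QDR
import Pool.Agent.Helper76_KTK.NPR
import Pool.Agent.Helper45_KTK.CLS
import Pool.Agent.Helper51_KTK.MXA
import Pool.Agent.Helper45_KTK.MXB
import Pool.Agent.Helper77_KTK.QD2
import Pool.Agent.Helper3_KTK.PG2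
import Pool.Agent.Helper43_KTK.CL2
import Pool.Agent.Helper60_KTK.QKA
import Pool.Agent.Helper46_KTK.QKB
import Pool.Agent.Helper62_KTK.SMB
import Pool.Agent.Helper47_KTK.GRW
import Pool.Agent.Helper88_KTK.NDL
import Pool.Agent.Helper76_KTK.GAP
import Pool.Agent.Helper36_KTK.RDB
import Pool.Agent.Helper64_KTK.ENM
import Pool.Agent.Helper92_KTK.NBF
import Pool.Agent.Helper66_KTK.EXI

/-!
# KTK: composition (MP_b2962a_an)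
-/

set_option autoImplicit false

namespace Pool.Agent.KTK.H18

open Pool.Agent.PRT
open scoped ContDiff

theorem cSGM : SgmStmt := Pool.Agent.KTK.H62.sgm
theorem cPLI : PliStmt := Pool.Agent.KTK.H18.pli
theorem cANG : AngStmt := Pool.Agent.KTK.H51.ang
theorem cBOX : BoxStmt := Pool.Agent.PRT.H92.box
theorem cCHN : ChnStmt := Pool.Agent.KTK.H77.chn
theorem cCRO : CroStmt := Pool.Agent.KTK.H64.cro
theorem cQDR : QdrStmt := Pool.Agent.KTK.H66.qdr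
theorem cNPR : NprStmt := Pool.Agent.KTK.H76.npr
theorem cMXA : MxaStmt := Pool.Agent.KTK.H51.mxa
theorem cMXB : MxbStmt := Pool.Agent.KTK.H45.mxb cMXA
theorem cQD2 : Qd2Stmt := Pool.Agent.KTK.H77.qd2 cQDR
theorem cPG2 : Pg2Stmt := Pool.Agent.KTK.H3.pg2
theorem cCL2 : Cl2Stmt := Pool.Agent.KTK.H43.cl2 cANG cBOX cCHN cCRO
theorem cQKA : QkaStmt := Pool.Agent.KTK.H60.qka cMXA cSGM cPLI cPG2 cQD2 cANG cCL2
theorem cQKB : QkbStmt := Pool.Agent.KTK.H46.qkb cMXA cMXB cQKA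
theorem cSMB : SmbStmt := Pool.Agent.KTK.H62.smb
theorem cGRW : GrwStmt := Pool.Agent.KTK.H47.grw
theorem cNDL : NdlStmt := Pool.Agent.KTK.H88.ndl
theorem cGAP : GapStmt := Pool.Agent.KTK.H76.gap
theorem cRDB : RdbStmt := Pool.Agent.KTK.H36.rdb cNDL
theorem cENM : EnmStmt := Pool.Agent.KTK.H64.enm
theorem cNBF : NbfStmt := Pool.Agent.KTK.H92.nbf cMXA cMXB cQKB cSMB cGRW cNDL cGAP cRDB cENM cNPR
theorem cEXI : ExiStmt := Pool.Agent.KTK.H66.exi cNDL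

theorem nonBrjuno (F : E → E) (w : E) (C : ℝ) (hF : Cs F)
    (hC : ∀ (n : ℕ) (z : E), ‖F^[n] z - z - (n : ℝ) • w‖ ≤ C)
    (hw : ∀ (q : ℕ) (a b : ℤ), 1 ≤ q → (q : ℝ) • w ≠ iv a b) (h : NBr w) :
    ∀ N : ℕ, ∃ (q : ℕ) (a b : ℤ) (L : ℝ), 1 ≤ q ∧ (∀ m ≤ q, ∀ z, ‖fderiv ℝ (F^[m]) z‖ ≤ L) ∧
      ‖(q : ℝ) • w - iv a b‖ * (q + L) ^ N ≤ 1 :=
  cNBF F w C hF hC hw h

theorem expLiouville (F : E → E) (w : E) (C c : ℝ) (hF : Cs F)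
    (hC : ∀ (n : ℕ) (z : E), ‖F^[n] z - z - (n : ℝ) • w‖ ≤ C)
    (hw : ∀ (q : ℕ) (a b : ℤ), 1 ≤ q → (q : ℝ) • w ≠ iv a b) (hc : 0 < c)
    (h : ∀ Q : ℕ, ∃ (q : ℕ) (a b : ℤ), Q ≤ q ∧
      ‖(q : ℝ) • w - iv a b‖ ≤ Real.exp (-c * q)) :
    ∀ N : ℕ, ∃ (q : ℕ) (a b : ℤ) (L : ℝ), 1 ≤ q ∧ (∀ m ≤ q, ∀ z, ‖fderiv ℝ (F^[m]) z‖ ≤ L) ∧
      ‖(q : ℝ) • w - iv a b‖ * (q + L) ^ N ≤ 1 := by
  refine nonBrjuno F w C hF hC hw (cEXI w c (fun q hq => ?_) hc h)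
  rw [nd, norm_pos_iff, sub_ne_zero]
  exact hw q _ _ hq

end Pool.Agent.KTK.H18
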